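import Pool.Agent.Lead.Rains

namespace Pool.Agent.Results.MP_321bb7_mp.Counterexample

open Pool.Agent.Lead.Rains

theorem result : ∃ (n : ℕ) (k : Fin n → ℕ) (r : Fin n → ℝ),
    (∀ j, 1 ≤ k j) ∧ (∀ j, 0 < r j ∧ r j < 2) ∧ Anomaly k r ∧ NonChiral k ∧
    (∃ x, L k r x < 0) ∧ trR k r < 0 :=
  ⟨3, k0, r0, k0_pos, r0_mem, anom, nonchiral, ⟨_, L_half⟩, trR_neg⟩

end Pool.Agent.Results.MP_321bb7_mp.Counterexample
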